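import Pool.Agent.Q35.TT.Stm3

/-!
# Project TT (helper35), job FS2: `S_FS2`. Author of this file: helper121.
-/

set_option autoImplicit false

open MvPolynomial Pool.Agent.Y720.MZ

namespace Pool.Agent.Q121.TT

open Pool.Agent.Q35.TT

/-- the exponent vector -/
noncomputable def mm (i j : ℕ) : Fin 2 →₀ ℕ := Finsupp.single 0 i + Finsupp.single 1 j

theorem mm_zero (i j : ℕ) : mm i j 0 = i := by simp [mm]

theorem mm_one (i j : ℕ) : mm i j 1 = j := by simp [mm]

theorem mm_eq (m : Fin 2 →₀ ℕ) : mm (m 0) (m 1) = m := by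
  ext i
  fin_cases i
  · exact mm_zero _ _
  · exact mm_one _ _

theorem sum_supp {R M : Type} [CommRing R] [AddCommMonoid M] (f : MvPolynomial (Fin 2) R)
    (hf : ∀ j, f.degreeOf j ≤ 4) (F : (Fin 2 →₀ ℕ) → M) (hF : ∀ m, f.coeff m = 0 → F m = 0) :
    ∑ m ∈ f.support, F m = ∑ p : Fin 5 × Fin 5, F (mm p.1 p.2) := by
  classical
  have hinj : Set.InjOn (fun p : Fin 5 × Fin 5 => mm p.1 p.2) (Finset.univ : Finset (Fin 5 × Fin 5)) := by
    intro p _ q _ h
    have h0 := congrArg (fun m : Fin 2 →₀ ℕ => m 0) h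
    have h1 := congrArg (fun m : Fin 2 →₀ ℕ => m 1) h
    simp only [mm_zero, mm_one] at h0 h1
    exact Prod.ext (Fin.ext h0) (Fin.ext h1)
  rw [← Finset.sum_image (f := F) hinj]
  refine Finset.sum_subset ?_ ?_
  · intro m hm
    have h0 := (monomial_le_degreeOf 0 hm).trans (hf 0)
    have h1 := (monomial_le_degreeOf 1 hm).trans (hf 1)
    refine Finset.mem_image.2 ⟨(⟨m 0, by omega⟩, ⟨m 1, by omega⟩), Finset.mem_univ _, ?_⟩
    exact mm_eq m
  · intro m _ hm
    exact hF m (notMem_support_iff.1 hm)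

/-- the coefficients -/
noncomputable def cf {R : Type} [CommRing R] (f : MvPolynomial (Fin 2) R) : Fin 5 → Fin 5 → R :=
  fun i j => f.coeff (mm i j)

theorem rep {R : Type} [CommRing R] (f : MvPolynomial (Fin 2) R) (hf : ∀ j, f.degreeOf j ≤ 4) :
    f = ∑ i : Fin 5, ∑ j : Fin 5, C (cf f i j) * X 0 ^ (i : ℕ) * X 1 ^ (j : ℕ) := by
  conv_lhs => rw [f.as_sum]
  rw [sum_supp f hf (fun m => monomial m (coeff m f)) (fun m hm => by rw [hm, monomial_zero]),
    Fintype.sum_prod_type]
  refine Finset.sum_congr rfl fun i _ => Finset.sum_congr rfl fun j _ => ?_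
  rw [cf, mm, X_pow_eq_monomial, X_pow_eq_monomial, C_mul_monomial, monomial_mul, mul_one, mul_one]

theorem lc_zero {R : Type} [CommRing R] (f : MvPolynomial (Fin 2) R) (hf : ∀ j, f.degreeOf j ≤ 4)
    (x : Fin 2 → Fin 2 → R) : lc f x 0 = cx (cf f) (x 1) := by
  funext k
  have hu : (Finset.univ.erase 0 : Finset (Fin 2)) = {1} := by decide
  rw [lc, Finset.sum_filter, sum_supp f hf (fun m => if m 0 = (k : ℕ) then coeff m f * mo m x 0 else 0)
    (fun m hm => by rw [hm, zero_mul, ite_self]), Fintype.sum_prod_type]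
  rw [Finset.sum_eq_single k]
  · simp only [mm_zero, if_true, mo, hu, Finset.prod_singleton, mm_one, Fin.sum_univ_five, cx, bq, cf]
    simp
  · intro b _ hb
    refine Finset.sum_eq_zero fun j _ => ?_
    rw [if_neg]
    rw [mm_zero]
    exact fun h => hb (Fin.ext h)
  · intro h
    exact absurd (Finset.mem_univ _) h

theorem lc_one {R : Type} [CommRing R] (f : MvPolynomial (Fin 2) R) (hf : ∀ j, f.degreeOf j ≤ 4)
    (x : Fin 2 → Fin 2 → R) : lc f x 1 = cy (cf f) (x 0) := by
  funext k
  have hu : (Finset.univ.erase 1 : Finset (Fin 2)) = {0} := by decide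
  rw [lc, Finset.sum_filter, sum_supp f hf (fun m => if m 1 = (k : ℕ) then coeff m f * mo m x 1 else 0)
    (fun m hm => by rw [hm, zero_mul, ite_self]), Fintype.sum_prod_type_right]
  rw [Finset.sum_eq_single k]
  · simp only [mm_one, if_true, mo, hu, Finset.prod_singleton, mm_zero, Fin.sum_univ_five, cy, bq, cf]
    simp
  · intro b _ hb
    refine Finset.sum_eq_zero fun j _ => ?_
    rw [if_neg]
    rw [mm_one]
    exact fun h => hb (Fin.ext h)
  · intro h
    exact absurd (Finset.mem_univ _) h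

theorem smooth {K : Type} [Field K] {f : MvPolynomial (Fin 2) K} (hf : ∀ j, f.degreeOf j ≤ 4)
    (hs : SmoothN f) : Smooth (cf f) := by
  intro x y hx hy h1 h2
  obtain ⟨i, k, h⟩ := hs ![x, y] (by intro j; fin_cases j <;> assumption)
  have hf' : ∀ j, (map (algebraMap K (AlgebraicClosure K)) f).degreeOf j ≤ 4 := by
    intro j
    exact (degreeOf_le_iff).2 fun m hm => (monomial_le_degreeOf j (support_map_subset _ f hm)).trans (hf j)
  have hc : cf (map (algebraMap K (AlgebraicClosure K)) f) =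
      fun i j => algebraMap K (AlgebraicClosure K) (cf f i j) := by
    funext i j
    exact coeff_map _ _ _
  fin_cases i
  · apply h
    have := lc_zero _ hf' ![x, y]
    change bd (lc _ _ 0) x k = 0
    rw [this, hc]
    exact h1 k
  · apply h
    have := lc_one _ hf' ![x, y]
    change bd (lc _ _ 1) y k = 0
    rw [this, hc]
    exact h2 k

theorem smooth_swap {K : Type} [Field K] {c : Fin 5 → Fin 5 → K} (h : Smooth c) :
    Smooth (fun i j => c j i) :=
  fun x y hx hy h1 h2 => h y x hy hx h2 h1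

theorem eval_f {R : Type} [CommRing R] (f : MvPolynomial (Fin 2) R) (hf : ∀ j, f.degreeOf j ≤ 4)
    (y : Fin 2 → R) : eval y f = bq (cy (cf f) ![1, y 0]) ![1, y 1] := by
  conv_lhs => rw [rep f hf]
  simp only [Fin.sum_univ_five, bq, cy]
  simp
  ring

theorem eval_f' {R : Type} [CommRing R] (f : MvPolynomial (Fin 2) R) (hf : ∀ j, f.degreeOf j ≤ 4)
    (y : Fin 2 → R) : eval y f = bq (cy (fun i j => cf f j i) ![1, y 1]) ![1, y 0] := by
  conv_lhs => rw [rep f hf]
  simp only [Fin.sum_univ_five, bq, cy]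
  simp
  ring

theorem eval_d {K : Type} [Field K] (f : MvPolynomial (Fin 2) K) (hf : ∀ j, f.degreeOf j ≤ 4)
    (y : Fin 2 → K) : eval y (pderiv 0 f) = bq (gd (cf f) (y 0)) ![1, y 1] := by
  conv_lhs => rw [rep f hf]
  simp only [Derivation.leibniz, Derivation.leibniz_pow, pderiv_X, pderiv_C, smul_eq_mul, map_mul,
    map_add, map_pow, eval_C, eval_X, Fin.sum_univ_five, bq, gd, bd]
  simp
  ring

theorem eval_d' {K : Type} [Field K] (f : MvPolynomial (Fin 2) K) (hf : ∀ j, f.degreeOf j ≤ 4)
    (y : Fin 2 → K) : eval y (pderiv 1 f) = bq (gd (fun i j => cf f j i) (y 1)) ![1, y 0] := by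
  conv_lhs => rw [rep f hf]
  simp only [Derivation.leibniz, Derivation.leibniz_pow, pderiv_X, pderiv_C, smul_eq_mul, map_mul,
    map_add, map_pow, eval_C, eval_X, Fin.sum_univ_five, bq, gd, bd]
  simp
  ring

theorem pq_eval {K : Type} [Field K] (a : Fin 5 → K) (t : K) : (pq a).eval t = bq a ![1, t] := by
  simp only [pq, Fin.sum_univ_five, bq]
  simp

theorem pq_deg {K : Type} [Field K] (a : Fin 5 → K) : (pq a).natDegree ≤ 4 := by
  refine Polynomial.natDegree_sum_le_of_forall_le _ _ fun i _ => ?_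
  exact (Polynomial.natDegree_C_mul_X_pow_le _ _).trans (by omega)

theorem not_nd {K : Type} [Field K] [Infinite K] (g h : Fin 5 → K) (c : K)
    (hc : ∀ t, bq h ![1, t] = c * bq g ![1, t]) : ¬ ND g h := by
  have h1 : pq h = Polynomial.C c * pq g := by
    refine Polynomial.funext fun t => ?_
    rw [Polynomial.eval_mul, Polynomial.eval_C, pq_eval, pq_eval, hc]
  have h2 : (pq h).natDegree ≤ (pq g).natDegree := by
    rw [h1]
    exact Polynomial.natDegree_C_mul_le _ _
  have h3 := pq_deg g
  rintro (h4 | h4)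
  · apply h4
    rw [h1, mul_pow]
    exact Dvd.dvd.mul_left (dvd_pow_self _ two_ne_zero) _
  · omega

theorem fs2 (h : S_SPE) : S_FS2 := by
  intro K _ _ f hf hs J hJ hJ'
  have hs1 := smooth hf hs
  have hs2 := smooth_swap hs1
  have F1 := (h K (cf f) hs1).2
  have F2 := (h K _ hs2).2
  by_cases h0 : (0 : Fin 2) ∈ J
  · have h1 : (1 : Fin 2) ∉ J := by
      intro h1
      apply hJ'
      ext i
      fin_cases i <;> simp [h0, h1]
    refine ((F2.image fun s : K => {y : Fin 2 → K | y 1 = s}).subset ?_)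
    rintro P ⟨z, _, hz, rfl⟩
    refine ⟨z 1, Or.inr ?_, ?_⟩
    · obtain ⟨c, hc⟩ := hz 1 h1
      refine not_nd _ _ c fun t => ?_
      have h3 := hc ![t, z 1] (by
        intro k hk
        fin_cases k
        · exact absurd h0 hk
        · rfl)
      rw [eval_d' f hf, eval_f' f hf] at h3
      exact h3
    · ext y
      constructor
      · intro hy k hk
        fin_cases k
        · exact absurd h0 hk
        · exact hy
      · intro hy
        exact hy 1 h1
  · have h1 : (1 : Fin 2) ∈ J := by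
      obtain ⟨i, hi⟩ := hJ
      fin_cases i
      · exact absurd hi h0
      · exact hi
    refine ((F1.image fun s : K => {y : Fin 2 → K | y 0 = s}).subset ?_)
    rintro P ⟨z, _, hz, rfl⟩
    refine ⟨z 0, Or.inr ?_, ?_⟩
    · obtain ⟨c, hc⟩ := hz 0 h0
      refine not_nd _ _ c fun t => ?_
      have h3 := hc ![z 0, t] (by
        intro k hk
        fin_cases k
        · rfl
        · exact absurd h1 hk)
      rw [eval_d f hf, eval_f f hf] at h3
      exact h3
    · ext y
      constructor
      · intro hy k hk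
        fin_cases k
        · exact hy
        · exact absurd h1 hk
      · intro hy
        exact hy 0 h0

end Pool.Agent.Q121.TT
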