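import Pool.Agent.Q35.TT.Stm

/-! Project TT (helper35): job TRN (helper121). -/

set_option autoImplicit false

open WeierstrassCurve Pool.Agent.Y720.MZ Pool.Agent.Q35.TT

namespace Pool.Agent.Q121.TT

variable {K : Type} [Field K]

theorem some_congr {a b c x y x' y' : K} (h : (cv a b c).toAffine.Nonsingular x y)
    (h' : (cv a b c).toAffine.Nonsingular x' y') (hx : x = x') (hy : y = y') :
    (Affine.Point.some x y h : Pt a b c) = .some x' y' h' := by
  subst hx
  subst hy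
  rfl

theorem ns_T {a b c x y u r : K} (hu : u ≠ 0) (h : (cv a b c).toAffine.Nonsingular x y) :
    (cv ((a + 3 * r) / u ^ 2) ((b + 2 * r * a + 3 * r ^ 2) / u ^ 4)
      ((c + r * b + r ^ 2 * a + r ^ 3) / u ^ 6)).toAffine.Nonsingular ((x - r) / u ^ 2) (y / u ^ 3) := by
  rw [cv_ns] at h ⊢
  obtain ⟨h1, h2⟩ := h
  constructor
  · field_simp
    linear_combination h1
  · rcases h2 with h2 | h2
    · left
      intro h3
      apply h2
      have h4 : 3 * ((x - r) / u ^ 2) ^ 2 + 2 * ((a + 3 * r) / u ^ 2) * ((x - r) / u ^ 2) +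
          (b + 2 * r * a + 3 * r ^ 2) / u ^ 4 = (3 * x ^ 2 + 2 * a * x + b) / u ^ 4 := by
        field_simp
        ring
      rw [h4] at h3
      exact (div_eq_zero_iff.1 h3).resolve_right (pow_ne_zero _ hu)
    · right
      intro h3
      apply h2
      have h4 : 2 * (y / u ^ 3) = (2 * y) / u ^ 3 := by ring
      rw [h4] at h3
      exact (div_eq_zero_iff.1 h3).resolve_right (pow_ne_zero _ hu)

/-- the map on the points -/
def T (a b c u r : K) (hu : u ≠ 0) : Pt a b c → Pt ((a + 3 * r) / u ^ 2)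
    ((b + 2 * r * a + 3 * r ^ 2) / u ^ 4) ((c + r * b + r ^ 2 * a + r ^ 3) / u ^ 6)
  | 0 => 0
  | .some x y h => .some ((x - r) / u ^ 2) (y / u ^ 3) (ns_T hu h)

theorem T_zero (a b c u r : K) (hu : u ≠ 0) : T a b c u r hu 0 = 0 := rfl

theorem T_some (a b c u r : K) (hu : u ≠ 0) {x y : K} (h : (cv a b c).toAffine.Nonsingular x y) :
    T a b c u r hu (.some x y h) = .some ((x - r) / u ^ 2) (y / u ^ 3) (ns_T hu h) := rfl

theorem T_add [DecidableEq K] (a b c u r : K) (hu : u ≠ 0) (P Q : Pt a b c) :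
    T a b c u r hu (P + Q) = T a b c u r hu P + T a b c u r hu Q := by
  have hu2 : u ^ 2 ≠ 0 := pow_ne_zero _ hu
  have hu3 : u ^ 3 ≠ 0 := pow_ne_zero _ hu
  rcases P with _ | ⟨x₁, y₁, h₁⟩
  · change T a b c u r hu (0 + Q) = 0 + T a b c u r hu Q
    rw [zero_add, zero_add]
  rcases Q with _ | ⟨x₂, y₂, h₂⟩
  · change T a b c u r hu (_ + 0) = _ + 0
    rw [add_zero, add_zero]
  by_cases hx : x₁ = x₂
  · subst hx
    rcases eq_or_neg h₁ h₂ with he | he
    · rw [← he]
      by_cases hy : 2 * y₁ = 0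
      · rw [dbl_zero h₁ hy, T_some, dbl_zero _ (by rw [mul_div_assoc', hy, zero_div]), T_zero]
      · obtain ⟨ℓ, hℓ⟩ : ∃ ℓ : K, ℓ * (2 * y₁) = 3 * x₁ ^ 2 + 2 * a * x₁ + b :=
          ⟨(3 * x₁ ^ 2 + 2 * a * x₁ + b) / (2 * y₁), div_mul_cancel₀ _ hy⟩
        obtain ⟨h3, e3⟩ := dbl_mk h₁ hy hℓ
        have hy' : 2 * (y₁ / u ^ 3) ≠ 0 := by
          rw [mul_div_assoc']
          exact div_ne_zero hy hu3
        obtain ⟨h4, e4⟩ := dbl_mk (ns_T (r := r) hu h₁) hy' (ℓ := ℓ / u) (by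
          field_simp
          linear_combination hℓ)
        rw [e3, T_some, T_some, e4]
        apply some_congr
        · field_simp
          ring
        · field_simp
          ring
    · have e5 : (Affine.Point.some x₁ y₁ h₁ : Pt a b c) + .some x₁ y₂ h₂ = 0 := by
        rw [he, neg_add_cancel]
      have e6 : T a b c u r hu (.some x₁ y₁ h₁) = -T a b c u r hu (.some x₁ y₂ h₂) := by
        rw [he]
        obtain ⟨h7, e7⟩ := neg_mk h₂
        rw [e7, T_some, T_some]
        obtain ⟨h8, e8⟩ := neg_mk (ns_T (r := r) hu h₂)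
        rw [e8]
        exact some_congr _ _ rfl (by ring)
      rw [e5, e6, neg_add_cancel, T_zero]
  · obtain ⟨ℓ, hℓ⟩ : ∃ ℓ : K, ℓ * (x₁ - x₂) = y₁ - y₂ :=
      ⟨(y₁ - y₂) / (x₁ - x₂), div_mul_cancel₀ _ (sub_ne_zero.2 hx)⟩
    obtain ⟨h3, e3⟩ := add_mk h₁ h₂ hx hℓ
    have hx' : (x₁ - r) / u ^ 2 ≠ (x₂ - r) / u ^ 2 := by
      intro h
      rw [div_left_inj' hu2] at h
      exact hx (by linear_combination h)
    obtain ⟨h4, e4⟩ := add_mk (ns_T (r := r) hu h₁) (ns_T (r := r) hu h₂) hx' (ℓ := ℓ / u) (by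
      field_simp
      linear_combination hℓ)
    rw [e3, T_some, T_some, T_some, e4]
    apply some_congr
    · field_simp
      ring
    · field_simp
      ring

theorem T_nsmul [DecidableEq K] (a b c u r : K) (hu : u ≠ 0) (P : Pt a b c) (n : ℕ) :
    T a b c u r hu (n • P) = n • T a b c u r hu P := by
  induction n with
  | zero => rw [zero_nsmul, zero_nsmul, T_zero]
  | succ n ih => rw [succ_nsmul, succ_nsmul, T_add, ih]

/-- the statement TRN -/
theorem trn : S_TRN := by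
  intro K _ _ a b c x y u r n hu _ h
  obtain ⟨h1, h2⟩ := h
  refine ⟨ns_T hu h1, ?_⟩
  letI : DecidableEq K := Classical.decEq K
  have h3 := T_nsmul a b c u r hu (.some x y h1 : Pt a b c) n
  rw [h2, T_zero, T_some] at h3
  exact h3.symm

end Pool.Agent.Q121.TT
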